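import Mathlib
import Pool.Agent.H993.CF.Fin

/-!
# The condensate fraction of lattice bosons does not fluctuate

Lattice bosons at large integer filling (quantum rotors) on the torus `(ℤ/L)^d`, `d ≥ 2`, at zero
temperature, with the on-site repulsion `U ∑ n_x²` (`n_x` is the number of particles at `x`, counted
from a large filling) and hopping of strength one between nearest neighbours. The Lee-Huang-Yang law
of these bosons says that the mean `⟨1 - N₀⟩` of the depletion in the ground state is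
`(1 + o(1)) D` as `U → 0`, with Bogoliubov's value `D = L^{-d} ∑_{k ≠ 0} √(U / (2 λ_k))`; here `N₀`
is the operator of the condensate fraction. We prove that the ground state is an approximate
eigenvector of the depletion: `‖(1 - N₀) ψ - D ψ‖ = o(D)`. So Bogoliubov's value holds for the
distribution of the depletion and not only for its mean, and the variance of the condensate fraction
is `o(D²)`.

Ingredients: the distribution `μ` of the angles in a real ground state; the second moment of `N₀` is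
the mean of `r2²`. The infrared bounds by Gaussian domination with trial functions of the angles
(the library modules behind `LatticeLeeHuangYang`) are proved here with the additional weight
`(1 - r2)²` in the trial functions, which gives `A₃ ≤ (1 + o(1)) D A₂` for the moments `A_m` of the
depletion `1 - r2`. With `A₁ ≥ (1 - o(1)) D` (library) and the Cauchy-Schwarz inequality
`A₂² ≤ A₁ A₃` this gives `A₂ ≤ (1 + o(1)) A₁²`.
-/

namespace Pool.Agent.Results.MP_4952d6_mp.CondensateFluctuations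

section

variable {V : Type} [Fintype V] [DecidableEq V]

/-- `ψ` is a normalised wave function of finite energy with `N` particles on the finite lattice `V`.
A configuration `n : V → ℤ` gives the number of particles at each site, counted from a large
uniform filling. -/
structure IsState (N : ℤ) (ψ : (V → ℤ) → ℂ) : Prop where
  particles : ∀ n, ψ n ≠ 0 → ∑ x, n x = N
  normalised : HasSum (fun n => ‖ψ n‖ ^ 2) 1
  finite_energy : Summable fun n : V → ℤ => (∑ x, (n x : ℝ) ^ 2) * ‖ψ n‖ ^ 2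

/-- The one-particle correlation `⟨ψ, a_x^* a_y ψ⟩`, where the operator `a_x^* a_y` moves a particle
from `y` to `x` (amplitude one, `a_x^* a_y = e^{i (θ_x - θ_y)}`). -/
noncomputable def correlation (x y : V) (ψ : (V → ℤ) → ℂ) : ℂ :=
  ∑' n : V → ℤ, (starRingEnd ℂ) (ψ (n + Pi.single x 1 - Pi.single y 1)) * ψ n

/-- The operator of the condensate fraction, `N₀ = a_0^* a_0 / |V| = |V|⁻² ∑_{x,y} a_x^* a_y` with
`a_0 = |V|^{-1/2} ∑_x a_x`; here `(a_x^* a_y ψ)(n) = ψ(n - e_x + e_y)`. -/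
noncomputable def condensate (ψ : (V → ℤ) → ℂ) (n : V → ℤ) : ℂ :=
  (∑ x, ∑ y, ψ (n - Pi.single x 1 + Pi.single y 1)) / (Fintype.card V : ℂ) ^ 2

/-- The expectation in `ψ` of the Hamiltonian
`∑_{x,y} K_{xy} (n_x - ν_x) (n_y - ν_y) - ∑_{x,y} w_{xy} (a_x^* a_y + a_y^* a_x) / 2`. -/
noncomputable def energy (K : Matrix V V ℝ) (w : V → V → ℝ) (ν : V → ℝ) (ψ : (V → ℤ) → ℂ) : ℝ :=
  (∑' n : V → ℤ, (∑ x, ∑ y, K x y * (((n x : ℝ) - ν x) * ((n y : ℝ) - ν y))) * ‖ψ n‖ ^ 2)
    - ∑ x, ∑ y, w x y * (correlation x y ψ).re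

/-- `ψ` is a ground state of the system with `N` particles. -/
def IsGroundState (K : Matrix V V ℝ) (w : V → V → ℝ) (ν : V → ℝ) (N : ℤ)
    (ψ : (V → ℤ) → ℂ) : Prop :=
  IsState N ψ ∧ ∀ φ, IsState N φ → energy K w ν ψ ≤ energy K w ν φ

theorem isState_iff (N : ℤ) (ψ : (V → ℤ) → ℂ) :
    IsState N ψ ↔ Pool.Agent.N657.QR.IsState N ψ :=
  ⟨fun h => ⟨h.1, h.2, h.3⟩, fun h => ⟨h.1, h.2, h.3⟩⟩

theorem isGroundState_iff (K : Matrix V V ℝ) (w : V → V → ℝ) (ν : V → ℝ) (N : ℤ)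
    (ψ : (V → ℤ) → ℂ) :
    IsGroundState K w ν N ψ ↔ Pool.Agent.N657.QR.IsGroundState K w ν N ψ := by
  unfold IsGroundState Pool.Agent.N657.QR.IsGroundState
  simp only [isState_iff]
  exact Iff.rfl

end

/-- Hopping of strength one between nearest neighbours of the torus `(ℤ/L)^d`: the number of the
coordinate directions `i` with `y = x + e_i`. -/
def hopping {d L : ℕ} (x y : Fin d → ZMod L) : ℝ :=
  ∑ i : Fin d, if y = x + Pi.single i 1 then 1 else 0

/-- The eigenvalue `λ_k = ∑_i (2 - 2 cos (2πk_i/L))` of the lattice Laplacian. -/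
noncomputable def dispersion {d L : ℕ} (k : Fin d → ZMod L) : ℝ :=
  ∑ i, (2 - 2 * Real.cos (2 * Real.pi * ((k i).val : ℝ) / L))

/-- Bogoliubov's value `D = L^{-d} ∑_{k ≠ 0} √(U / (2 λ_k))` of the depletion. -/
noncomputable def bogoliubov (d L : ℕ) [NeZero L] (U : ℝ) : ℝ :=
  (∑ k ∈ (Finset.univ : Finset (Fin d → ZMod L)).erase 0, Real.sqrt (U / (2 * dispersion k))) /
    (L : ℝ) ^ d

theorem bogoliubov_eq {d L : ℕ} [NeZero L] {U : ℝ} (hU : 0 < U) : bogoliubov d L U =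
    Pool.Agent.N657.QL.IL d L * (Real.sqrt U / Real.sqrt 2) := by
  have hcard : ((Fintype.card (Fin d → ZMod L) : ℕ) : ℝ) = (L : ℝ) ^ d := by
    simp [ZMod.card]
  unfold bogoliubov Pool.Agent.N657.QL.IL
  rw [hcard, div_mul_eq_mul_div, Finset.sum_mul]
  congr 1
  refine Finset.sum_congr rfl fun k _ => ?_
  have e1 : dispersion k = Pool.Agent.N657.QR.lam k := rfl
  rw [e1, Real.sqrt_div hU.le, Real.sqrt_mul (by norm_num : (0:ℝ) ≤ 2)]
  have e2 : Real.sqrt 2 ≠ 0 := (Real.sqrt_pos.2 two_pos).ne'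
  rw [one_div_mul_eq_div, div_div]

/-- The condensate operator on a multiple of a real wave function. -/
theorem condensate_eq {V : Type} [Fintype V] [DecidableEq V] {ψ : (V → ℤ) → ℂ}
    {Φ : (V → ℤ) → ℝ} {c : ℂ} (h : ∀ n, ψ n = c * (Φ n : ℂ)) (n : V → ℤ) :
    condensate ψ n = c * ((Pool.Agent.H993.CF.N0 Φ n : ℝ) : ℂ) := by
  unfold condensate Pool.Agent.H993.CF.N0
  rw [Finset.sum_comm]
  push_cast
  rw [mul_div_assoc', Finset.mul_sum]
  congr 1
  refine Finset.sum_congr rfl fun y _ => ?_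
  rw [Finset.mul_sum]
  refine Finset.sum_congr rfl fun x _ => ?_
  rw [h]
  congr 3
  unfold Pool.Agent.N657.QR.hp Pool.Agent.N657.QR.dl
  abel

/-- **The condensate fraction does not fluctuate.** Let `d ≥ 2` and `ε > 0`. If `U > 0` is small
enough and the even side `L` of the torus is large enough, then there is a ground state with zero
particles (counted from the uniform integer filling), and all ground states `ψ` satisfy
`‖(1 - N₀) ψ - D ψ‖² ≤ ε D²`, where `N₀` is the operator of the condensate fraction and `D` is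
Bogoliubov's value of the depletion. -/
theorem result (d : ℕ) (hd : 2 ≤ d) (ε : ℝ) (hε : 0 < ε) :
    ∃ U₀ : ℝ, 0 < U₀ ∧ ∀ U : ℝ, 0 < U → U ≤ U₀ → ∃ L₀ : ℕ, ∀ (L : ℕ) [NeZero L], L₀ ≤ L →
      Even L →
      (∃ ψ, IsGroundState (U • (1 : Matrix (Fin d → ZMod L) (Fin d → ZMod L) ℝ)) hopping 0 0 ψ) ∧
      ∀ ψ, IsGroundState (U • (1 : Matrix (Fin d → ZMod L) (Fin d → ZMod L) ℝ)) hopping 0 0 ψ →
        Summable (fun n => ‖ψ n - condensate ψ n - (bogoliubov d L U : ℂ) * ψ n‖ ^ 2) ∧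
        ∑' n, ‖ψ n - condensate ψ n - (bogoliubov d L U : ℂ) * ψ n‖ ^ 2 ≤
          ε * bogoliubov d L U ^ 2 := by
  obtain ⟨U₀, hU₀, h⟩ := Pool.Agent.H993.CF.real_var d hd ε hε
  refine ⟨U₀, hU₀, fun U hU hUU => ?_⟩
  obtain ⟨L₀, hL₀⟩ := h U hU hUU
  refine ⟨L₀, fun L _ hL hev => ?_⟩
  have h1 := hL₀ L hL hev
  have hPD := Pool.Agent.H993.DM.pd_one (d := d) (L := L) hU
  have hhop : (hopping : (Fin d → ZMod L) → (Fin d → ZMod L) → ℝ) =
      Pool.Agent.N657.QR.nnw 1 := rfl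
  have hnn : ∀ x y : Fin d → ZMod L, 0 ≤ Pool.Agent.N657.QR.nnw 1 x y := fun x y =>
    Pool.Agent.N498.QL_SYM.nnw_nonneg x y
  have hcn := Pool.Agent.H993.DM.conn_of (d := d) (L := L) (w := Pool.Agent.N657.QR.nnw 1)
    (fun _ _ => le_rfl)
  rw [hhop]
  obtain ⟨Φ, hΦ⟩ := Pool.Agent.N657.QR.ex (U • (1 : Matrix (Fin d → ZMod L) (Fin d → ZMod L) ℝ))
    (Pool.Agent.N657.QR.nnw 1) 0 0 hPD hnn
  obtain ⟨g1, g2⟩ := Pool.Agent.N657.QR.cpx (U • (1 : Matrix (Fin d → ZMod L) (Fin d → ZMod L) ℝ))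
    (Pool.Agent.N657.QR.nnw 1) 0 0 Φ hPD hnn hcn hΦ
  refine ⟨⟨_, (isGroundState_iff _ _ _ _ _).2 g1⟩, fun ψ hψ => ?_⟩
  obtain ⟨⟨c, hc1, hcψ⟩, -⟩ := g2 ψ ((isGroundState_iff _ _ _ _ ψ).1 hψ)
  obtain ⟨h2, h3⟩ := h1 Φ hΦ
  have key : ∀ n, ‖ψ n - condensate ψ n - (bogoliubov d L U : ℂ) * ψ n‖ ^ 2 =
      (Φ n - Pool.Agent.H993.CF.N0 Φ n -
        Pool.Agent.N657.QL.IL d L * (Real.sqrt U / Real.sqrt 2) * Φ n) ^ 2 := by
    intro n
    rw [condensate_eq hcψ n, hcψ n, bogoliubov_eq hU]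
    have e1 : c * (Φ n : ℂ) - c * ((Pool.Agent.H993.CF.N0 Φ n : ℝ) : ℂ) -
        ((Pool.Agent.N657.QL.IL d L * (Real.sqrt U / Real.sqrt 2) : ℝ) : ℂ) * (c * (Φ n : ℂ)) =
        c * ((Φ n - Pool.Agent.H993.CF.N0 Φ n -
          Pool.Agent.N657.QL.IL d L * (Real.sqrt U / Real.sqrt 2) * Φ n : ℝ) : ℂ) := by
      push_cast
      ring
    rw [e1, norm_mul, hc1, one_mul, Complex.norm_real, Real.norm_eq_abs, sq_abs]
  simp only [key]
  rw [bogoliubov_eq hU]
  exact ⟨h2, h3⟩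

end Pool.Agent.Results.MP_4952d6_mp.CondensateFluctuations
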