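import Mathlib
import Pool.Agent.H993.DM.E

/-!
# The one-particle density matrix of the ground states of lattice bosons

Lattice bosons at large filling (quantum rotors) on the torus `(ℤ/L)^d`, `d ≥ 2`, at zero
temperature, with the on-site repulsion `U ∑ n_x²` (`n_x` is the number of particles at `x`, counted
from a large filling) and hopping of strength one between nearest neighbours, with an arbitrary
number `N` of particles. The kernel of the one-particle density matrix of the ground state, divided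
by the density, is `G(x, y) = ⟨a_x^* a_y⟩`. The Lee-Huang-Yang law of these bosons says that the
average of `1 - G(x, y)` over all pairs of sites is `(1 + o(1))` times Bogoliubov's value as `U → 0`.
We prove that Bogoliubov's theory gives the whole density matrix, at each distance of `x` and `y`:
`1 - G(x, y) = (1 + o(1)) P(y - x)`, `P(z) = L^{-d} ∑_{k ≠ 0} √(U / (2 λ_k)) (1 - cos (2 π k z / L))`,
uniformly in `x`, `y`, in the number of particles, and in the volume (if it is large enough,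
depending on `U`). With an arbitrary background charge (disorder) `ν` this is true at each
displacement `z` in the mean over `x`, and `|1 - G| ≤ (1 + o(1)) P` is true at all pairs of sites,
for all interactions not larger than `U` and all hopping amplitudes not smaller than one.

Ingredients: the sharp upper bound for the depletion of the neutral ground state from the library
(`LatticeLeeHuangYang`); the uncertainty relation between the phases and the numbers of particles
mode by mode, for translation invariant hopping of arbitrary range; the comparison of the densities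
by the change of the energy under an additional hopping between `x` and `x + z` for the given `z`.
-/

namespace Pool.Agent.Results.MP_4952d6_mp.GroundStateDensityMatrix

section

variable {V : Type} [Fintype V] [DecidableEq V]

/-- `ψ` is a normalised wave function of finite energy with `N` particles on the finite lattice `V`.
A configuration `n : V → ℤ` gives the number of particles at each site, counted from a large
uniform filling. -/
structure IsState (N : ℤ) (ψ : (V → ℤ) → ℂ) : Prop where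
  particles : ∀ n, ψ n ≠ 0 → ∑ x, n x = N
  normalised : HasSum (fun n => ‖ψ n‖ ^ 2) 1
  finite_energy : Summable fun n : V → ℤ => (∑ x, (n x : ℝ) ^ 2) * ‖ψ n‖ ^ 2

/-- The one-particle correlation `⟨ψ, a_x^* a_y ψ⟩`, where the operator `a_x^* a_y` moves a particle
from `y` to `x` (amplitude one, `a_x^* a_y = e^{i (θ_x - θ_y)}`). -/
noncomputable def correlation (x y : V) (ψ : (V → ℤ) → ℂ) : ℂ :=
  ∑' n : V → ℤ, (starRingEnd ℂ) (ψ (n + Pi.single x 1 - Pi.single y 1)) * ψ n

/-- The expectation in `ψ` of the Hamiltonian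
`∑_{x,y} K_{xy} (n_x - ν_x) (n_y - ν_y) - ∑_{x,y} w_{xy} (a_x^* a_y + a_y^* a_x) / 2`. -/
noncomputable def energy (K : Matrix V V ℝ) (w : V → V → ℝ) (ν : V → ℝ) (ψ : (V → ℤ) → ℂ) : ℝ :=
  (∑' n : V → ℤ, (∑ x, ∑ y, K x y * (((n x : ℝ) - ν x) * ((n y : ℝ) - ν y))) * ‖ψ n‖ ^ 2)
    - ∑ x, ∑ y, w x y * (correlation x y ψ).re

/-- `ψ` is a ground state of the system with `N` particles. -/
def IsGroundState (K : Matrix V V ℝ) (w : V → V → ℝ) (ν : V → ℝ) (N : ℤ)
    (ψ : (V → ℤ) → ℂ) : Prop :=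
  IsState N ψ ∧ ∀ φ, IsState N φ → energy K w ν ψ ≤ energy K w ν φ

theorem isState_iff (N : ℤ) (ψ : (V → ℤ) → ℂ) :
    IsState N ψ ↔ Pool.Agent.N657.QR.IsState N ψ :=
  ⟨fun h => ⟨h.1, h.2, h.3⟩, fun h => ⟨h.1, h.2, h.3⟩⟩

theorem isGroundState_iff (K : Matrix V V ℝ) (w : V → V → ℝ) (ν : V → ℝ) (N : ℤ)
    (ψ : (V → ℤ) → ℂ) :
    IsGroundState K w ν N ψ ↔ Pool.Agent.N657.QR.IsGroundState K w ν N ψ := by
  unfold IsGroundState Pool.Agent.N657.QR.IsGroundState
  simp only [isState_iff]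
  exact Iff.rfl

end

/-- Hopping of strength one between nearest neighbours of the torus `(ℤ/L)^d`: the number of the
coordinate directions `i` with `y = x + e_i`. -/
def hopping {d L : ℕ} (x y : Fin d → ZMod L) : ℝ :=
  ∑ i : Fin d, if y = x + Pi.single i 1 then 1 else 0

/-- The eigenvalue `λ_k = ∑_i (2 - 2 cos (2πk_i/L))` of the lattice Laplacian. -/
noncomputable def dispersion {d L : ℕ} (k : Fin d → ZMod L) : ℝ :=
  ∑ i, (2 - 2 * Real.cos (2 * Real.pi * ((k i).val : ℝ) / L))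

/-- Bogoliubov's profile `P(z) = L^{-d} ∑_{k ≠ 0} √(U / (2 λ_k)) (1 - cos (2 π k z / L))`. -/
noncomputable def profile {d L : ℕ} [NeZero L] (U : ℝ) (z : Fin d → ZMod L) : ℝ :=
  (∑ k ∈ (Finset.univ : Finset (Fin d → ZMod L)).erase 0, Real.sqrt (U / (2 * dispersion k)) *
    (1 - Real.cos (2 * Real.pi * ((∑ i, k i * z i : ZMod L).val : ℝ) / L))) / (L : ℝ) ^ d

theorem profile_eq {d L : ℕ} [NeZero L] {U : ℝ} (hU : 0 < U) (z : Fin d → ZMod L) :
    profile U z = Real.sqrt U * Pool.Agent.H993.DM.pr d L 0 z := by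
  unfold profile Pool.Agent.H993.DM.pr
  have hV : ((Fintype.card (Fin d → ZMod L) : ℕ) : ℝ) = (L : ℝ) ^ d := by
    simp [ZMod.card]
  rw [hV]
  have h2 : (0 : ℝ) < Real.sqrt 2 := Real.sqrt_pos.2 (by norm_num)
  have h1 : ∀ k ∈ (Finset.univ : Finset (Fin d → ZMod L)).erase 0,
      Real.sqrt (U / (2 * dispersion k)) *
        (1 - Real.cos (2 * Real.pi * ((∑ i, k i * z i : ZMod L).val : ℝ) / L)) =
      Real.sqrt U / Real.sqrt 2 *
        (Pool.Agent.H993.TR.oc k z / Real.sqrt (Pool.Agent.N657.QR.lam k + 4 * 0)) := by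
    intro k _
    have e1 : Pool.Agent.N657.QR.lam k + 4 * 0 = dispersion k := by
      rw [mul_zero, add_zero]
      rfl
    have e2 : Pool.Agent.H993.TR.oc k z =
        1 - Real.cos (2 * Real.pi * ((∑ i, k i * z i : ZMod L).val : ℝ) / L) := by
      unfold Pool.Agent.H993.TR.oc
      rw [Pool.Agent.N157.QR_FOU.ps_re]
      rfl
    rw [e1, e2, Real.sqrt_div hU.le, Real.sqrt_mul (by norm_num : (0:ℝ) ≤ 2)]
    ring
  rw [Finset.sum_congr rfl h1, ← Finset.mul_sum]
  ring

/-- The correlations of a ground state are those of a real ground state. -/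
theorem corr_real {V : Type} [Fintype V] [DecidableEq V] [Nonempty V] {K : Matrix V V ℝ}
    {w : V → V → ℝ} {ν : V → ℝ} {N : ℤ} (hK : K.PosDef) (hw : ∀ x y, 0 ≤ w x y)
    (hc : Pool.Agent.N657.QR.Conn w) :
    ∃ Φ : (V → ℤ) → ℝ, Pool.Agent.N657.QR.IsG K w ν N Φ ∧ (∃ ψ, IsGroundState K w ν N ψ) ∧
      ∀ ψ, IsGroundState K w ν N ψ → ∀ x y,
        correlation x y ψ = ((Pool.Agent.N657.QR.cr x y Φ : ℝ) : ℂ) := by
  obtain ⟨Φ, hΦ⟩ := Pool.Agent.N657.QR.ex K w ν N hK hw
  obtain ⟨h1, h2⟩ := Pool.Agent.N657.QR.cpx K w ν N Φ hK hw hc hΦ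
  refine ⟨Φ, hΦ, ⟨_, (isGroundState_iff K w ν N _).2 h1⟩, ?_⟩
  intro ψ hψ x y
  obtain ⟨⟨c, hc1, hcψ⟩, -⟩ := h2 ψ ((isGroundState_iff K w ν N ψ).1 hψ)
  have hcc : (starRingEnd ℂ) c * c = 1 := by
    rw [mul_comm, Complex.mul_conj, Complex.normSq_eq_norm_sq, hc1]
    norm_num
  unfold correlation Pool.Agent.N657.QR.cr
  rw [Complex.ofReal_tsum]
  refine tsum_congr fun n => ?_
  rw [hcψ, hcψ, map_mul, Complex.conj_ofReal, Complex.ofReal_mul]
  have e1 : Pool.Agent.N657.QR.hp x y n = n + Pi.single x 1 - Pi.single y 1 := rfl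
  rw [e1]
  calc (starRingEnd ℂ) c * (Φ (n + Pi.single x 1 - Pi.single y 1) : ℂ) * (c * (Φ n : ℂ)) =
      ((starRingEnd ℂ) c * c) * ((Φ (n + Pi.single x 1 - Pi.single y 1) : ℂ) * (Φ n : ℂ)) := by
        ring
    _ = _ := by rw [hcc, one_mul]

/-- **Bogoliubov's theory gives the one-particle density matrix of the ground states at all
distances.** Let `d ≥ 2` and `ε > 0`. If `U > 0` is small enough and the even side `L` of the torus
is large enough, then:

1. with on-site interaction `U` and nearest neighbour hopping of strength one, for every number `N`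
   of particles there is a ground state, and all ground states satisfy
   `|1 - ⟨a_x^* a_y⟩ - P(y - x)| ≤ ε P(y - x)` for all sites `x`, `y`;
2. with an arbitrary background `ν` the same is true for every `z` for the mean over `x` of
   `|1 - ⟨a_x^* a_{x+z}⟩ - P(z)|`;
3. for every positive definite interaction `K ≤ U`, every hopping `w ≥ 0` which is at least one
   between nearest neighbours, every `ν` and `N` there is a ground state, and all ground states
   satisfy `|1 - ⟨a_x^* a_y⟩| ≤ (1 + ε) P(y - x)` for all sites `x`, `y`. -/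
theorem result (d : ℕ) (hd : 2 ≤ d) (ε : ℝ) (hε : 0 < ε) :
    ∃ U₀ : ℝ, 0 < U₀ ∧ ∀ U : ℝ, 0 < U → U ≤ U₀ → ∃ L₀ : ℕ, ∀ (L : ℕ) [NeZero L], L₀ ≤ L →
      Even L →
      (∀ N : ℤ,
        (∃ ψ, IsGroundState (U • (1 : Matrix (Fin d → ZMod L) (Fin d → ZMod L) ℝ)) hopping 0 N ψ) ∧
        ∀ ψ, IsGroundState (U • (1 : Matrix (Fin d → ZMod L) (Fin d → ZMod L) ℝ)) hopping 0 N ψ →
          ∀ x y, ‖1 - correlation x y ψ - (profile U (y - x) : ℂ)‖ ≤ ε * profile U (y - x)) ∧
      (∀ (ν : (Fin d → ZMod L) → ℝ) (N : ℤ),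
        (∃ ψ, IsGroundState (U • (1 : Matrix (Fin d → ZMod L) (Fin d → ZMod L) ℝ)) hopping ν N ψ) ∧
        ∀ ψ, IsGroundState (U • (1 : Matrix (Fin d → ZMod L) (Fin d → ZMod L) ℝ)) hopping ν N ψ →
          ∀ z, (∑ x, ‖1 - correlation x (x + z) ψ - (profile U z : ℂ)‖) / (L : ℝ) ^ d ≤
            ε * profile U z) ∧
      ∀ (K : Matrix (Fin d → ZMod L) (Fin d → ZMod L) ℝ) (ν : (Fin d → ZMod L) → ℝ)
        (w : (Fin d → ZMod L) → (Fin d → ZMod L) → ℝ),
        K.PosDef → (U • (1 : Matrix (Fin d → ZMod L) (Fin d → ZMod L) ℝ) - K).PosSemidef →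
        (∀ x y, 0 ≤ w x y) → (∀ x (i : Fin d), 1 ≤ w x (x + Pi.single i 1)) → ∀ N : ℤ,
          (∃ ψ, IsGroundState K w ν N ψ) ∧
          ∀ ψ, IsGroundState K w ν N ψ →
            ∀ x y, ‖1 - correlation x y ψ‖ ≤ (1 + ε) * profile U (y - x) := by
  obtain ⟨U₀, hU₀, h⟩ := Pool.Agent.H993.DM.real_rel d hd ε hε
  refine ⟨U₀, hU₀, fun U hU hUU => ?_⟩
  obtain ⟨L₀, hL₀⟩ := h U hU hUU
  refine ⟨max L₀ 2, fun L _ hL hev => ?_⟩
  obtain ⟨h1, h2, h3⟩ := hL₀ L ((le_max_left _ _).trans hL) hev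
  have hPD := Pool.Agent.H993.DM.pd_one (d := d) (L := L) hU
  have hhop : (hopping : (Fin d → ZMod L) → (Fin d → ZMod L) → ℝ) =
      Pool.Agent.N657.QR.nnw 1 := rfl
  have hnn : ∀ x y : Fin d → ZMod L, 0 ≤ Pool.Agent.N657.QR.nnw 1 x y := fun x y =>
    Pool.Agent.N498.QL_SYM.nnw_nonneg x y
  have hcard : ((Fintype.card (Fin d → ZMod L) : ℕ) : ℝ) = (L : ℝ) ^ d := by
    simp [ZMod.card]
  have hcn := Pool.Agent.H993.DM.conn_of (d := d) (L := L) (w := Pool.Agent.N657.QR.nnw 1)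
    (fun _ _ => le_rfl)
  rw [hhop]
  refine ⟨?_, ?_, ?_⟩
  · intro N
    obtain ⟨Φ, hΦ, hex, hc⟩ := corr_real (ν := 0) (N := N) hPD hnn hcn
    refine ⟨hex, fun ψ hψ x y => ?_⟩
    rw [hc ψ hψ x y, profile_eq hU]
    have h4 := h3 N Φ hΦ x y
    have e1 : (1 : ℂ) - ((Pool.Agent.N657.QR.cr x y Φ : ℝ) : ℂ) -
        ((Real.sqrt U * Pool.Agent.H993.DM.pr d L 0 (y - x) : ℝ) : ℂ) =
        ((1 - Pool.Agent.N657.QR.cr x y Φ -
          Real.sqrt U * Pool.Agent.H993.DM.pr d L 0 (y - x) : ℝ) : ℂ) := by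
      push_cast
      ring
    rw [e1, Complex.norm_real, Real.norm_eq_abs]
    exact h4
  · intro ν N
    obtain ⟨Φ, hΦ, hex, hc⟩ := corr_real (ν := ν) (N := N) hPD hnn hcn
    refine ⟨hex, fun ψ hψ z => ?_⟩
    have h4 := h2 ν N Φ hΦ z
    rw [hcard] at h4
    have hL0 : (0 : ℝ) < (L : ℝ) ^ d := by
      have : (0 : ℝ) < L := by exact_mod_cast Nat.pos_of_ne_zero (NeZero.ne L)
      positivity
    rw [div_le_iff₀ hL0, profile_eq hU]
    refine le_trans (le_of_eq (Finset.sum_congr rfl fun x _ => ?_)) h4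
    rw [hc ψ hψ]
    have e1 : (1 : ℂ) - ((Pool.Agent.N657.QR.cr x (x + z) Φ : ℝ) : ℂ) -
        ((Real.sqrt U * Pool.Agent.H993.DM.pr d L 0 z : ℝ) : ℂ) =
        ((1 - Pool.Agent.N657.QR.cr x (x + z) Φ -
          Real.sqrt U * Pool.Agent.H993.DM.pr d L 0 z : ℝ) : ℂ) := by
      push_cast
      ring
    rw [e1, Complex.norm_real, Real.norm_eq_abs]
  · intro K ν w hK hKU hw hw1 N
    have hnw : ∀ x y, Pool.Agent.N657.QR.nnw 1 x y ≤ w x y :=
      Pool.Agent.N657.QR.con.2.2 d L 1 w ((le_max_right _ _).trans hL) hw hw1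
    obtain ⟨Φ, hΦ, hex, hc⟩ := corr_real (ν := ν) (N := N) hK hw
      (Pool.Agent.H993.DM.conn_of hnw)
    refine ⟨hex, fun ψ hψ x y => ?_⟩
    have h4 := h1 K ν w N Φ hK hKU hnw hΦ x y
    have h5 := (Pool.Agent.H993.DM.cf_le (d := d) (L := L) hΦ.2.2.1 hΦ.1.1).2 x y
    rw [hc ψ hψ x y, profile_eq hU]
    have e1 : (1 : ℂ) - ((Pool.Agent.N657.QR.cr x y Φ : ℝ) : ℂ) =
        ((1 - Pool.Agent.N657.QR.cr x y Φ : ℝ) : ℂ) := by
      push_cast
      ring
    rw [e1, Complex.norm_real, Real.norm_eq_abs, abs_of_nonneg (by linarith [(abs_le.1 h5).2])]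
    exact h4

end Pool.Agent.Results.MP_4952d6_mp.GroundStateDensityMatrix
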