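import Mathlib
import Pool.Agent.H993.MD.C

/-!
# The momentum distribution of the ground state of lattice bosons

Lattice bosons at large integer filling (quantum rotors) on the torus `(ℤ/L)^d`, `d ≥ 2`, at zero
temperature, with the on-site repulsion `U ∑ n_x²` (`n_x` is the number of particles at `x`, counted
from a large filling) and hopping of strength one between nearest neighbours. The Lee-Huang-Yang law
of these bosons says that the depletion of the condensate, that is the sum over all momenta `k ≠ 0`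
of the occupation numbers `n(k)`, is `(1 + o(1))` times Bogoliubov's value as `U → 0`. We prove the
law for each momentum: `n(k) = (1 + o(1)) √(U / (2 λ_k))`, uniformly in all momenta `k ≠ 0` of the
torus, down to the smallest ones, where `√(U / (2 λ_k))` is the infrared singularity
`√(U / 2) / |k|`.

Ingredients: the upper bound mode by mode from Gaussian domination with trial functions of the
angles (the library modules behind `LatticeLeeHuangYang`; we remove a condition on the third moments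
of the modes from three of them), which is used for the sum over all modes there; here the weight
`cM M (r2 θ) * r2 θ` has to be removed in a single mode, which is done by the Cauchy-Schwarz
inequality and the bound for the second moments. The lower bound is the uncertainty relation between
the phase and the number of particles in the mode `k`.
-/

namespace Pool.Agent.Results.MP_4952d6_mp.MomentumDistribution

section

variable {V : Type} [Fintype V] [DecidableEq V]

/-- `ψ` is a normalised wave function of finite energy with `N` particles on the finite lattice `V`.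
A configuration `n : V → ℤ` gives the number of particles at each site, counted from a large
uniform filling. -/
structure IsState (N : ℤ) (ψ : (V → ℤ) → ℂ) : Prop where
  particles : ∀ n, ψ n ≠ 0 → ∑ x, n x = N
  normalised : HasSum (fun n => ‖ψ n‖ ^ 2) 1
  finite_energy : Summable fun n : V → ℤ => (∑ x, (n x : ℝ) ^ 2) * ‖ψ n‖ ^ 2

/-- The one-particle correlation `⟨ψ, a_x^* a_y ψ⟩`, where the operator `a_x^* a_y` moves a particle
from `y` to `x` (amplitude one, `a_x^* a_y = e^{i (θ_x - θ_y)}`). -/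
noncomputable def correlation (x y : V) (ψ : (V → ℤ) → ℂ) : ℂ :=
  ∑' n : V → ℤ, (starRingEnd ℂ) (ψ (n + Pi.single x 1 - Pi.single y 1)) * ψ n

/-- The expectation in `ψ` of the Hamiltonian
`∑_{x,y} K_{xy} (n_x - ν_x) (n_y - ν_y) - ∑_{x,y} w_{xy} (a_x^* a_y + a_y^* a_x) / 2`. -/
noncomputable def energy (K : Matrix V V ℝ) (w : V → V → ℝ) (ν : V → ℝ) (ψ : (V → ℤ) → ℂ) : ℝ :=
  (∑' n : V → ℤ, (∑ x, ∑ y, K x y * (((n x : ℝ) - ν x) * ((n y : ℝ) - ν y))) * ‖ψ n‖ ^ 2)
    - ∑ x, ∑ y, w x y * (correlation x y ψ).re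

/-- `ψ` is a ground state of the system with `N` particles. -/
def IsGroundState (K : Matrix V V ℝ) (w : V → V → ℝ) (ν : V → ℝ) (N : ℤ)
    (ψ : (V → ℤ) → ℂ) : Prop :=
  IsState N ψ ∧ ∀ φ, IsState N φ → energy K w ν ψ ≤ energy K w ν φ

theorem isState_iff (N : ℤ) (ψ : (V → ℤ) → ℂ) :
    IsState N ψ ↔ Pool.Agent.N657.QR.IsState N ψ :=
  ⟨fun h => ⟨h.1, h.2, h.3⟩, fun h => ⟨h.1, h.2, h.3⟩⟩

theorem isGroundState_iff (K : Matrix V V ℝ) (w : V → V → ℝ) (ν : V → ℝ) (N : ℤ)
    (ψ : (V → ℤ) → ℂ) :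
    IsGroundState K w ν N ψ ↔ Pool.Agent.N657.QR.IsGroundState K w ν N ψ := by
  unfold IsGroundState Pool.Agent.N657.QR.IsGroundState
  simp only [isState_iff]
  exact Iff.rfl

end

/-- Hopping of strength one between nearest neighbours of the torus `(ℤ/L)^d`: the number of the
coordinate directions `i` with `y = x + e_i`. -/
def hopping {d L : ℕ} (x y : Fin d → ZMod L) : ℝ :=
  ∑ i : Fin d, if y = x + Pi.single i 1 then 1 else 0

/-- The eigenvalue `λ_k = ∑_i (2 - 2 cos (2πk_i/L))` of the lattice Laplacian. -/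
noncomputable def dispersion {d L : ℕ} (k : Fin d → ZMod L) : ℝ :=
  ∑ i, (2 - 2 * Real.cos (2 * Real.pi * ((k i).val : ℝ) / L))

/-- The plane wave `e^{2 π i k x / L}`. -/
noncomputable def wave {d L : ℕ} (k x : Fin d → ZMod L) : ℂ :=
  Complex.exp (2 * Real.pi * Complex.I * ((∑ i, k i * x i : ZMod L).val : ℂ) / (L : ℂ))

/-- The momentum distribution `n(k) = ⟨a_k^* a_k⟩`, `a_k = L^{-d/2} ∑_x e^{-2 π i k x / L} a_x`, that
is `n(k) = L^{-d} ∑_{x,y} e^{2 π i k (x - y) / L} ⟨a_x^* a_y⟩`. -/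
noncomputable def occupation {d L : ℕ} [NeZero L] (k : Fin d → ZMod L)
    (ψ : ((Fin d → ZMod L) → ℤ) → ℂ) : ℂ :=
  (∑ x, ∑ y, wave k (x - y) * correlation x y ψ) / (L : ℂ) ^ d

/-- The correlations of a ground state are those of a real ground state. -/
theorem corr_real {V : Type} [Fintype V] [DecidableEq V] [Nonempty V] {K : Matrix V V ℝ}
    {w : V → V → ℝ} {ν : V → ℝ} {N : ℤ} (hK : K.PosDef) (hw : ∀ x y, 0 ≤ w x y)
    (hc : Pool.Agent.N657.QR.Conn w) :
    ∃ Φ : (V → ℤ) → ℝ, Pool.Agent.N657.QR.IsG K w ν N Φ ∧ (∃ ψ, IsGroundState K w ν N ψ) ∧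
      ∀ ψ, IsGroundState K w ν N ψ → ∀ x y,
        correlation x y ψ = ((Pool.Agent.N657.QR.cr x y Φ : ℝ) : ℂ) := by
  obtain ⟨Φ, hΦ⟩ := Pool.Agent.N657.QR.ex K w ν N hK hw
  obtain ⟨h1, h2⟩ := Pool.Agent.N657.QR.cpx K w ν N Φ hK hw hc hΦ
  refine ⟨Φ, hΦ, ⟨_, (isGroundState_iff K w ν N _).2 h1⟩, ?_⟩
  intro ψ hψ x y
  obtain ⟨⟨c, hc1, hcψ⟩, -⟩ := h2 ψ ((isGroundState_iff K w ν N ψ).1 hψ)
  have hcc : (starRingEnd ℂ) c * c = 1 := by
    rw [mul_comm, Complex.mul_conj, Complex.normSq_eq_norm_sq, hc1]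
    norm_num
  unfold correlation Pool.Agent.N657.QR.cr
  rw [Complex.ofReal_tsum]
  refine tsum_congr fun n => ?_
  rw [hcψ, hcψ, map_mul, Complex.conj_ofReal, Complex.ofReal_mul]
  have e1 : Pool.Agent.N657.QR.hp x y n = n + Pi.single x 1 - Pi.single y 1 := rfl
  rw [e1]
  calc (starRingEnd ℂ) c * (Φ (n + Pi.single x 1 - Pi.single y 1) : ℂ) * (c * (Φ n : ℂ)) =
      ((starRingEnd ℂ) c * c) * ((Φ (n + Pi.single x 1 - Pi.single y 1) : ℂ) * (Φ n : ℂ)) := by
        ring
    _ = _ := by rw [hcc, one_mul]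

open Pool.Agent.N157.QR_FOU in
theorem wave_sub {d L : ℕ} [NeZero L] (k x y : Fin d → ZMod L) : wave k (x - y) =
    ((cc k x * cc k y + ss k x * ss k y : ℝ) : ℂ) +
      ((ss k x * cc k y - cc k x * ss k y : ℝ) : ℂ) * Complex.I := by
  have h1 : wave k (x - y) = ps (dot k (x - y)) := by
    unfold ps
    rw [ZMod.stdAddChar_apply, ZMod.toCircle_apply]
    rfl
  rw [h1, dot_sub, sub_eq_add_neg, ps_add, ps_neg]
  unfold cc ss
  apply Complex.ext
  · simp
  · simp
    ring

open Pool.Agent.N157.QR_FOU in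
/-- The momentum distribution in terms of a real ground state. -/
theorem occupation_eq {d L : ℕ} [NeZero L] {ψ : ((Fin d → ZMod L) → ℤ) → ℂ}
    {Φ : ((Fin d → ZMod L) → ℤ) → ℝ}
    (h : ∀ x y, correlation x y ψ = ((Pool.Agent.N657.QR.cr x y Φ : ℝ) : ℂ))
    (k : Fin d → ZMod L) :
    occupation k ψ = ((Pool.Agent.H993.DM.nk Φ k /
      (Fintype.card (Fin d → ZMod L) : ℝ) : ℝ) : ℂ) := by
  have hcard : ((Fintype.card (Fin d → ZMod L) : ℕ) : ℝ) = (L : ℝ) ^ d := by
    simp [ZMod.card]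
  have h0 : ∑ x, ∑ y, (ss k x * cc k y - cc k x * ss k y) *
      Pool.Agent.N657.QR.cr x y Φ = 0 := by
    have e1 : ∑ x, ∑ y, (ss k x * cc k y - cc k x * ss k y) * Pool.Agent.N657.QR.cr x y Φ =
        ∑ x, ∑ y, -((ss k x * cc k y - cc k x * ss k y) * Pool.Agent.N657.QR.cr x y Φ) := by
      rw [Finset.sum_comm]
      refine Finset.sum_congr rfl fun x _ => Finset.sum_congr rfl fun y _ => ?_
      rw [Pool.Agent.N657.QR.bas.crcomm y x]
      ring
    simp only [Finset.sum_neg_distrib] at e1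
    linarith
  have h1 : ∑ x, ∑ y, wave k (x - y) * correlation x y ψ =
      ((Pool.Agent.H993.DM.nk Φ k : ℝ) : ℂ) := by
    have e1 : ∀ x y, wave k (x - y) * correlation x y ψ =
        (((cc k x * cc k y + ss k x * ss k y) * Pool.Agent.N657.QR.cr x y Φ : ℝ) : ℂ) +
        (((ss k x * cc k y - cc k x * ss k y) * Pool.Agent.N657.QR.cr x y Φ : ℝ) : ℂ) *
          Complex.I := by
      intro x y
      rw [wave_sub, h]
      push_cast
      ring
    simp only [e1, Finset.sum_add_distrib, ← Finset.sum_mul]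
    have e2 : ∑ x, ∑ y, ((((ss k x * cc k y - cc k x * ss k y) *
        Pool.Agent.N657.QR.cr x y Φ : ℝ)) : ℂ) = 0 := by
      rw [← Complex.ofReal_zero, ← h0]
      push_cast
      rfl
    rw [e2, zero_mul, add_zero]
    unfold Pool.Agent.H993.DM.nk BB Pool.Agent.H993.DM.KR
    rw [← Finset.sum_add_distrib]
    push_cast
    refine Finset.sum_congr rfl fun x _ => ?_
    rw [← Finset.sum_add_distrib]
    refine Finset.sum_congr rfl fun y _ => ?_
    ring
  unfold occupation
  rw [h1, hcard]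
  push_cast
  rfl

/-- **Bogoliubov's momentum distribution.** Let `d ≥ 2` and `ε > 0`. If `U > 0` is small enough and
the even side `L` of the torus is large enough, then there is a ground state with zero particles
(counted from the uniform integer filling), and the occupation number of every momentum `k ≠ 0` in
all ground states satisfies `|n(k) - √(U / (2 λ_k))| ≤ ε √(U / (2 λ_k))`. -/
theorem result (d : ℕ) (hd : 2 ≤ d) (ε : ℝ) (hε : 0 < ε) :
    ∃ U₀ : ℝ, 0 < U₀ ∧ ∀ U : ℝ, 0 < U → U ≤ U₀ → ∃ L₀ : ℕ, ∀ (L : ℕ) [NeZero L], L₀ ≤ L →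
      Even L →
      (∃ ψ, IsGroundState (U • (1 : Matrix (Fin d → ZMod L) (Fin d → ZMod L) ℝ)) hopping 0 0 ψ) ∧
      ∀ ψ, IsGroundState (U • (1 : Matrix (Fin d → ZMod L) (Fin d → ZMod L) ℝ)) hopping 0 0 ψ →
        ∀ k : Fin d → ZMod L, k ≠ 0 →
          ‖occupation k ψ - (Real.sqrt (U / (2 * dispersion k)) : ℂ)‖ ≤
            ε * Real.sqrt (U / (2 * dispersion k)) := by
  obtain ⟨U₀, hU₀, h⟩ := Pool.Agent.H993.MD.real_mom d hd ε hε
  refine ⟨U₀, hU₀, fun U hU hUU => ?_⟩
  obtain ⟨L₀, hL₀⟩ := h U hU hUU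
  refine ⟨L₀, fun L _ hL hev => ?_⟩
  have h1 := hL₀ L hL hev
  have hPD := Pool.Agent.H993.DM.pd_one (d := d) (L := L) hU
  have hhop : (hopping : (Fin d → ZMod L) → (Fin d → ZMod L) → ℝ) =
      Pool.Agent.N657.QR.nnw 1 := rfl
  have hnn : ∀ x y : Fin d → ZMod L, 0 ≤ Pool.Agent.N657.QR.nnw 1 x y := fun x y =>
    Pool.Agent.N498.QL_SYM.nnw_nonneg x y
  have hcn := Pool.Agent.H993.DM.conn_of (d := d) (L := L) (w := Pool.Agent.N657.QR.nnw 1)
    (fun _ _ => le_rfl)
  rw [hhop]
  obtain ⟨Φ, hΦ, hex, hc⟩ := corr_real (ν := 0) (N := 0) hPD hnn hcn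
  refine ⟨hex, fun ψ hψ k hk => ?_⟩
  rw [occupation_eq (hc ψ hψ) k]
  have h4 := (h1 Φ hΦ k hk).1
  rw [← Complex.ofReal_sub, Complex.norm_real, Real.norm_eq_abs]
  exact h4

end Pool.Agent.Results.MP_4952d6_mp.MomentumDistribution
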