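import Mathlib
import Pool.Agent.H993.LY.Main
import Pool.Agent.H993.LY.P22

/-!
# Bogoliubov's law for the depletion of the condensate at positive temperature

Lattice bosons at large filling (quantum rotors) on the torus `(ℤ/L)^d`, `d ≥ 3`, with the on-site
repulsion `U ∑ (n_x - ν_x)²`, hopping of strength `J` between nearest neighbours, at the temperature
`1/β`, for arbitrary site offsets `ν` (background, chemical potential, disorder) and in the ensemble
of all configurations whose total particle number belongs to a given nonempty set `T` (one number: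
canonical ensemble; all integers: grand canonical ensemble). When `√(U/J) + 1/(βJ) → 0`, the fraction
of the particles outside of the condensate is asymptotically equal to the value of Bogoliubov's
theory, `L^{-d} ∑_{k ≠ 0} (1/2) √(2U/(J λ_k)) coth (β √(2 U J λ_k)/2)`, uniformly in the volume, in the
ratio of the temperature and the energies of the phonons, and in the density.
-/

namespace Pool.Agent.Results.MP_4952d6_mp.ThermalDepletionLaw

open Filter Topology NormedSpace

/-- Occupation numbers (relative to a background) whose total belongs to `T`. -/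
abbrev Conf (V : Type) [Fintype V] (T : Set ℤ) : Type := {n : V → ℤ // ∑ x, n x ∈ T}

/-- The change of the occupation numbers when one particle moves from `y` to `x`. -/
def move {V : Type} [DecidableEq V] (x y : V) : V → ℤ := Pi.single x 1 - Pi.single y 1

section

variable {V : Type} [Fintype V] [DecidableEq V] {T : Set ℤ}

/-- The hopping operator `(e^{i(θ_x-θ_y)} + e^{i(θ_y-θ_x)})/2`, where `e^{i(θ_x-θ_y)}` moves one
particle from `y` to `x`, compressed to the span of the configurations in `Δ`. -/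
noncomputable def hop (Δ : Finset (Conf V T)) (x y : V) : Matrix Δ Δ ℝ := fun n m =>
  ((if n.1.1 = m.1.1 + move x y then 1 else 0) +
    (if m.1.1 = n.1.1 + move x y then 1 else 0)) / 2

/-- The interaction energy of a configuration. -/
def pot (K : Matrix V V ℝ) (ν : V → ℝ) (n : V → ℤ) : ℝ :=
  ∑ x, ∑ y, K x y * (((n x : ℝ) - ν x) * ((n y : ℝ) - ν y))

/-- The Hamiltonian `∑ K_xy (n_x-ν_x)(n_y-ν_y) - ∑ w_xy cos(θ_x-θ_y)`, compressed to the span of
the configurations in `Δ`. -/
noncomputable def ham (K : Matrix V V ℝ) (w : V → V → ℝ) (ν : V → ℝ) (Δ : Finset (Conf V T)) :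
    Matrix Δ Δ ℝ :=
  Matrix.diagonal (fun n : Δ => pot K ν n.1.1) - ∑ x, ∑ y, w x y • hop Δ x y

/-- The condensate fraction `|V|⁻² ∑_{x,y} ⟨e^{i(θ_x-θ_y)}⟩` in the Gibbs state of the compressed
Hamiltonian. -/
noncomputable def condensate (β : ℝ) (K : Matrix V V ℝ) (w : V → V → ℝ) (ν : V → ℝ)
    (Δ : Finset (Conf V T)) : ℝ :=
  (∑ x, ∑ y, (hop Δ x y * exp (-β • ham K w ν Δ)).trace) /
    (exp (-β • ham K w ν Δ)).trace / (Fintype.card V : ℝ) ^ 2

end

section

variable {d L : ℕ} [NeZero L]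

/-- Hopping of strength `J` between nearest neighbours. -/
def hopping (J : ℝ) (x y : Fin d → ZMod L) : ℝ := ∑ i, if y = x + Pi.single i 1 then J else 0

/-- The eigenvalue `λ_k = ∑_i (2 - 2 cos (2πk_i/L))` of the lattice Laplacian. -/
noncomputable def dispersion (k : Fin d → ZMod L) : ℝ :=
  ∑ i, (2 - 2 * Real.cos (2 * Real.pi * ((k i).val : ℝ) / L))

/-- Bogoliubov's value `L^{-d} ∑_{k ≠ 0} (1/2) √(2U/(J λ_k)) coth (β √(2 U J λ_k)/2)`. -/
noncomputable def bogoliubov (d L : ℕ) [NeZero L] (U J β : ℝ) : ℝ :=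
  (∑ k ∈ (Finset.univ : Finset (Fin d → ZMod L)).erase 0,
    Real.sqrt (2 * U / (J * dispersion k)) / 2 *
      (Real.cosh (β * Real.sqrt (2 * U * J * dispersion k) / 2) /
        Real.sinh (β * Real.sqrt (2 * U * J * dispersion k) / 2))) / (L : ℝ) ^ d

end

open Pool.Agent.H993.TR in
/-- The condensate fraction has a limit which is given by the kernels without cut-off. -/
theorem cond_tendsto {V : Type} [Fintype V] [DecidableEq V] [Nonempty V] {β : ℝ} (hβ : 0 < β)
    {K : Matrix V V ℝ} (hK : K.PosDef) {w : V → V → ℝ} (hw : ∀ x y, 0 ≤ w x y) (ν : V → ℝ)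
    {T : Set ℤ} (hT : T.Nonempty) : 0 < TI (rt (rotK β K w ν) T) id ∧
    Tendsto (fun Δ : Finset (Conf V T) => condensate β K w ν Δ) atTop
      (𝓝 ((∑ x, ∑ y, TI (rt (rotK β K w ν) T) (sht T x y)) / TI (rt (rotK β K w ν) T) id /
        (Fintype.card V : ℝ) ^ 2)) := by
  have hne : Nonempty (CT V T) := by
    obtain ⟨N, hN⟩ := hT
    obtain ⟨v⟩ := (inferInstance : Nonempty V)
    exact ⟨⟨Pi.single v N, by simpa using hN⟩⟩
  obtain ⟨hpos, hlim⟩ := ratio_tendsto hβ hK hw ν T
  refine ⟨hpos, (hlim.div_const _).congr fun Δ => ?_⟩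
  have e1 : ∀ x y, Pool.Agent.H993.TR.mt (rt (cosK x y) T) Δ = hop Δ x y := fun x y => rfl
  have e2 : Pool.Agent.H993.TR.mt (rt (rotK β K w ν) T) Δ = -β • ham K w ν Δ := by
    ext n m
    unfold ham
    rw [Matrix.smul_apply, Matrix.sub_apply, Matrix.sum_apply]
    simp only [Matrix.sum_apply, Matrix.smul_apply, smul_eq_mul]
    unfold Pool.Agent.H993.TR.mt rt rotK
    have e3 : Matrix.diagonal (fun n : Δ => pot K ν n.1.1) n m =
        if n.1.1 = m.1.1 then pot K ν n.1.1 else 0 := by
      rw [Matrix.diagonal_apply]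
      by_cases hnm : n = m
      · subst hnm; simp
      · rw [if_neg hnm, if_neg]
        intro h'
        exact hnm (Subtype.ext (Subtype.ext h'))
    rw [e3]
    have e4 : ∀ x y, hop Δ x y n m = cosK x y n.1.1 m.1.1 := fun x y => rfl
    have e5 : pot K ν n.1.1 = Pool.Agent.H993.TR.pot K ν n.1.1 := rfl
    simp only [e4, e5]
    split_ifs <;> ring
  unfold condensate
  simp only [e1, e2]

open Pool.Agent.H993.LY in
theorem bog_eq {d L : ℕ} [NeZero L] {U J β : ℝ} (hU : 0 < U) (hJ : 0 < J) (hβ : 0 < β) :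
    bogoliubov d L U J β = bog d L U J β := by
  unfold bogoliubov bog
  rw [card_pow]
  congr 1
  refine Finset.sum_congr rfl fun k hk => ?_
  have hl : 0 < dispersion k :=
    Pool.Agent.N157.QR_FOU.lam_pos k (Finset.ne_of_mem_erase hk)
  have hlam : Pool.Agent.N657.QR.lam k = dispersion k := rfl
  rw [hlam]
  set l := dispersion k with hld
  set r := Real.sqrt (2 * U * J * l) with hr
  have hr0 : 0 < r := Real.sqrt_pos.2 (by positivity)
  have hr2 : r ^ 2 = 2 * U * J * l := Real.sq_sqrt (by positivity)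
  have hx : 0 < β * r / 2 := by positivity
  have h1 : Real.sqrt (2 * U / (J * l)) = r / (J * l) := by
    rw [Real.sqrt_eq_iff_mul_self_eq (by positivity) (by positivity)]
    rw [div_mul_div_comm, ← pow_two r, hr2]
    field_simp
  have hs : Real.sinh (β * r / 2) ≠ 0 := (Real.sinh_pos_iff.2 hx).ne'
  have h2 : sB U J β l = (β * r / 2 * (Real.cosh (β * r / 2) / Real.sinh (β * r / 2))) /
      (β * J * l) := by
    unfold sB xcoth
    rw [← hr, if_neg hx.ne']
    ring
  rw [h2, h1]
  field_simp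

open Pool.Agent.H993.TR Pool.Agent.H993.LY in
/-- **Bogoliubov's law of the thermal depletion**, uniformly in the volume and at all densities. -/
theorem result (d : ℕ) (hd : 3 ≤ d) (ε : ℝ) (hε : 0 < ε) : ∃ δ : ℝ, 0 < δ ∧
    ∀ (L : ℕ) [NeZero L] (U J β : ℝ) (ν : (Fin d → ZMod L) → ℝ) (T : Set ℤ),
    Even L → 0 < U → 0 < J → 0 < β → Real.sqrt (U / J) + 1 / (β * J) ≤ δ → T.Nonempty →
    (∃ c : ℝ, Tendsto (fun Δ : Finset (Conf (Fin d → ZMod L) T) =>
        condensate β (U • (1 : Matrix (Fin d → ZMod L) (Fin d → ZMod L) ℝ)) (hopping J) ν Δ)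
        atTop (𝓝 c) ∧
      |(1 - c) - bogoliubov d L U J β| ≤ ε * bogoliubov d L U J β) ∧
    ∀ (K : Matrix (Fin d → ZMod L) (Fin d → ZMod L) ℝ)
      (w : (Fin d → ZMod L) → (Fin d → ZMod L) → ℝ), K.PosDef →
      (U • (1 : Matrix (Fin d → ZMod L) (Fin d → ZMod L) ℝ) - K).PosSemidef →
      (∀ x y, 0 ≤ w x y) → (∀ x i, J ≤ w x (x + Pi.single i 1)) →
      ∃ c : ℝ, Tendsto (fun Δ : Finset (Conf (Fin d → ZMod L) T) => condensate β K w ν Δ)
        atTop (𝓝 c) ∧ 1 - c ≤ (1 + ε) * bogoliubov d L U J β := by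
  obtain ⟨δ₁, hδ₁, hup⟩ := neutral_upper d hd ε hε
  obtain ⟨δ₂, hδ₂, hlow⟩ := sector_lower d hd ε hε
  refine ⟨min δ₁ δ₂, lt_min hδ₁ hδ₂, ?_⟩
  intro L _ U J β ν T hL hU hJ hβ ha hT
  have hb := bog_eq (d := d) (L := L) hU hJ hβ
  have hD := hup L U J β hL hU hJ hβ (ha.trans (min_le_left _ _))
  have hn0 : (0:ℝ) < (Fintype.card (Fin d → ZMod L) : ℝ) := by exact_mod_cast Fintype.card_pos
  have key : ∀ (K : Matrix (Fin d → ZMod L) (Fin d → ZMod L) ℝ)
      (w : (Fin d → ZMod L) → (Fin d → ZMod L) → ℝ), K.PosDef →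
      (U • (1 : Matrix (Fin d → ZMod L) (Fin d → ZMod L) ℝ) - K).PosSemidef →
      (∀ x y, 0 ≤ w x y) → (∀ x i, J ≤ w x (x + Pi.single i 1)) →
      1 - (∑ x, ∑ y, TI (rt (rotK β K w ν) T) (sht T x y)) / TI (rt (rotK β K w ν) T) id /
        (Fintype.card (Fin d → ZMod L) : ℝ) ^ 2 ≤ (1 + ε) * bogoliubov d L U J β := by
    intro K w hK hUK hw hwJ
    obtain ⟨hpos, -⟩ := cond_tendsto hβ hK hw ν hT
    have h1 : ∀ N : ℤ, ((1 - (1 + ε) * bogoliubov d L U J β) *
        (Fintype.card (Fin d → ZMod L) : ℝ) ^ 2) * TI (rs (rotK β K w ν) N) id ≤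
        ∑ x, ∑ y, TI (rs (rotK β K w ν) N) (sh N x y) := by
      intro N
      have h2 := P20.task_cmp hβ hU hK hUK (w := w) (w' := Pool.Agent.N657.QR.nnw J)
        (nnw_nn hJ.le) (nnw_le hL hw hwJ) ν N
      refine le_trans ?_ h2
      rw [mul_assoc]
      refine mul_le_mul_of_nonneg_right ?_ ?_
      · rw [hb]
        have h3 : depl (AA β U (Pool.Agent.N657.QR.nnw J : (Fin d → ZMod L) →
          (Fin d → ZMod L) → ℝ)) ≤ (1 + ε) * bog d L U J β := hD
        linarith
      · have hA := rotK_adm hβ.le K hw ν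
        have hB := rotK_bdd' hβ hK hw ν
        refine mul_nonneg (by positivity) ?_
        exact (TS_nonneg (rs_adm hA N) id ∅).trans
          (TS_le_TI (rs_adm hA N) (rs_bdd hA hB N) Function.injective_id _)
    have h4 := set_bound hβ hK hw ν T _ h1
    have h5 : 1 - (1 + ε) * bogoliubov d L U J β ≤
        (∑ x, ∑ y, TI (rt (rotK β K w ν) T) (sht T x y)) / TI (rt (rotK β K w ν) T) id /
          (Fintype.card (Fin d → ZMod L) : ℝ) ^ 2 := by
      rw [le_div_iff₀ (by positivity), le_div_iff₀ hpos]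
      exact h4
    linarith
  refine ⟨?_, ?_⟩
  · have hpd : (U • (1 : Matrix (Fin d → ZMod L) (Fin d → ZMod L) ℝ)).PosDef :=
      Matrix.PosDef.one.smul hU
    have hw0 : ∀ x y : Fin d → ZMod L, 0 ≤ hopping J x y := fun x y => nnw_nn hJ.le x y
    obtain ⟨hpos, hlim⟩ := cond_tendsto hβ hpd hw0 ν hT
    refine ⟨_, hlim, ?_⟩
    rw [abs_le]
    constructor
    · have h1 : ∀ N : ℤ, ∑ x, ∑ y, TI (rs (rotK β (U • (1 : Matrix (Fin d → ZMod L)
          (Fin d → ZMod L) ℝ)) (hopping J) ν) N) (sh N x y) ≤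
          ((1 - (1 - ε) * bogoliubov d L U J β) * (Fintype.card (Fin d → ZMod L) : ℝ) ^ 2) *
            TI (rs (rotK β (U • (1 : Matrix (Fin d → ZMod L)
          (Fin d → ZMod L) ℝ)) (hopping J) ν) N) id := by
        intro N
        rw [hb, mul_assoc]
        exact hlow L U J β ν N hL hU hJ hβ (ha.trans (min_le_right _ _))
      have h2 := P22.task_set hβ hpd hw0 ν T _ h1
      have h3 : (∑ x, ∑ y, TI (rt (rotK β (U • (1 : Matrix (Fin d → ZMod L)
          (Fin d → ZMod L) ℝ)) (hopping J) ν) T) (sht T x y)) /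
          TI (rt (rotK β (U • (1 : Matrix (Fin d → ZMod L)
          (Fin d → ZMod L) ℝ)) (hopping J) ν) T) id /
          (Fintype.card (Fin d → ZMod L) : ℝ) ^ 2 ≤ 1 - (1 - ε) * bogoliubov d L U J β := by
        rw [div_le_iff₀ (by positivity), div_le_iff₀ hpos]
        exact h2
      linarith
    · have h1 := key _ (hopping J) hpd (by rw [sub_self]; exact Matrix.PosSemidef.zero) hw0
        (fun x i => by
          show J ≤ ∑ j, if x + Pi.single i 1 = x + Pi.single j 1 then J else 0
          have h2 : (if x + Pi.single i 1 = x + Pi.single i 1 then J else 0) ≤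
              ∑ j, if x + Pi.single i 1 = x + Pi.single j 1 then J else 0 :=
            Finset.single_le_sum (f := fun j => if x + Pi.single i 1 = x + Pi.single j 1 then J
              else (0:ℝ)) (fun j _ => by split_ifs <;> linarith) (Finset.mem_univ i)
          rwa [if_pos rfl] at h2)
      linarith
  · intro K w hK hUK hw hwJ
    obtain ⟨hpos, hlim⟩ := cond_tendsto hβ hK hw ν hT
    exact ⟨_, hlim, key K w hK hUK hw hwJ⟩

end Pool.Agent.Results.MP_4952d6_mp.ThermalDepletionLaw
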